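import Mathlib

/-!
# A bipartite graph without additive labelling by 1 and 2

Let `S` denote the neighbourhood sum of a labelling with labels `1` and `2`.

* Dead block.  Take a copy of `K_{2,3}` whose vertices also have neighbours outside the copy, the
  sums of the outside labels being `0, 1` on the side with two vertices and `0, 2, 4` on the side
  with three vertices.  The label sums `U ∈ [2,4]` and `W ∈ [3,6]` of the two sides satisfy
  `W - U ∈ {-1, ..., 4} = {0,2,4} - {0,1}`, hence some edge of the copy joins two vertices with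
  equal neighbourhood sums.
* There are six outer vertices `0, ..., 5`.  For every labelling of the outer vertices except the
  one with all labels `2`, one of 26 copies of `K_{2,3}` attached to them is a dead block.
* If all outer labels are `2`, consider the blow-up of the 6-cycle (`K_{3,3}` minus a perfect
  matching) in which the vertices of one side are replaced by two and those of the other side by
  three vertices, the outside sums being `0, 2` and `0, 4, 8`.  For every pair of adjacent parts
  all even differences are excluded, hence the sums of adjacent parts have different parities;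
  this is impossible because every vertex of the 6-cycle has exactly two neighbours and both
  sides have an odd number of parts.
-/

set_option autoImplicit false

namespace Pool.Agent.H.MP_d93746_co

/-- The vertices: six outer vertices, 26 blocks of five vertices and the blow-up of the 6-cycle,
which has three pairs and three triples of vertices. -/
abbrev Vtx : Type := Fin 6 ⊕ ((Fin 26 × Fin 5) ⊕ (Fin 3 × Fin 5))

/-- In a block the vertices `0, 1` form one side and `2, 3, 4` the other side. -/
def inner (s t : Fin 5) : Bool := Bool.xor (decide (s.val < 2)) (decide (t.val < 2))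

/-- The pairs of sets of outer vertices with label sums `2` and `4`, as lists. -/
def pat : Fin 11 → List (Fin 6) × List (Fin 6) :=
  ![([0], [0, 1]), ([0], [0, 2]), ([0], [0, 3]), ([1], [1, 2]), ([1], [1, 3]), ([2], [2, 3]),
    ([0], [0, 1, 2]), ([1], [1, 0, 2]), ([2], [2, 0, 1]), ([3], [3, 0, 1]),
    ([0, 1], [0, 1, 2, 3])]

/-- The outer neighbours of the vertex `s` of the block `g`. -/
def outL (g : Fin 26) (s : Fin 5) : List (Fin 6) :=
  if g.val < 22 then
    if s.val = 1 then [if g.val < 11 then 4 else 5]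
    else if s.val = 3 then (pat (Fin.ofNat 11 g.val)).1
    else if s.val = 4 then (pat (Fin.ofNat 11 g.val)).2
    else []
  else
    if s.val = 1 then [Fin.ofNat 6 (g.val - 22)]
    else if s.val = 3 then [4]
    else if s.val = 4 then [4, 5]
    else []

/-- Adjacency of the vertex `s` of the block `g` and the outer vertex `r`. -/
def outK (g : Fin 26) (s : Fin 5) (r : Fin 6) : Bool := decide (r ∈ outL g s)

/-- Adjacency of a vertex of type `s` of the blown-up 6-cycle and the outer vertex `r`. -/
def outC (s : Fin 5) (r : Fin 6) : Bool :=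
  if s.val = 1 then decide (r.val = 4)
  else if s.val = 3 then decide (r.val < 2)
  else if s.val = 4 then decide (r.val < 4)
  else false

/-- The adjacency. -/
def adj : Vtx → Vtx → Bool
  | Sum.inl _, Sum.inl _ => false
  | Sum.inl r, Sum.inr (Sum.inl (g, s)) => outK g s r
  | Sum.inr (Sum.inl (g, s)), Sum.inl r => outK g s r
  | Sum.inl r, Sum.inr (Sum.inr (_, s)) => outC s r
  | Sum.inr (Sum.inr (_, s)), Sum.inl r => outC s r
  | Sum.inr (Sum.inl (g, s)), Sum.inr (Sum.inl (g', s')) => decide (g = g') && inner s s'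
  | Sum.inr (Sum.inr (c, s)), Sum.inr (Sum.inr (c', s')) => decide (c ≠ c') && inner s s'
  | Sum.inr (Sum.inl _), Sum.inr (Sum.inr _) => false
  | Sum.inr (Sum.inr _), Sum.inr (Sum.inl _) => false

theorem inner_symm : ∀ s t : Fin 5, inner s t = inner t s := by decide

theorem inner_self : ∀ s : Fin 5, inner s s = false := by decide

theorem adj_symm (x y : Vtx) : adj x y = adj y x := by
  rcases x with r | ⟨g, s⟩ | ⟨g, s⟩ <;> rcases y with r' | ⟨g', s'⟩ | ⟨g', s'⟩ <;>
    simp only [adj]
  · rw [inner_symm s s']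
    congr 1
    by_cases h : g = g'
    · simp [h]
    · simp [h, Ne.symm h]
  · rw [inner_symm s s']
    congr 1
    by_cases h : g = g'
    · simp [h]
    · simp [h, Ne.symm h]

theorem adj_self (x : Vtx) : adj x x = false := by
  rcases x with r | ⟨g, s⟩ | ⟨g, s⟩ <;> simp [adj, inner_self]

/-- The bipartition. -/
def side : Vtx → Bool
  | Sum.inl r => decide (r.val < 4)
  | Sum.inr (Sum.inl (g, s)) => Bool.xor (decide (g.val < 22)) (decide (2 ≤ s.val))
  | Sum.inr (Sum.inr (_, s)) => decide (s.val < 2)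

theorem side_K : ∀ (g : Fin 26) (s : Fin 5) (r : Fin 6), outK g s r = true →
    Bool.xor (decide (g.val < 22)) (decide (2 ≤ s.val)) ≠ decide (r.val < 4) := by
  decide +kernel

theorem side_C : ∀ (s : Fin 5) (r : Fin 6), outC s r = true →
    decide (s.val < 2) ≠ decide (r.val < 4) := by
  decide +kernel

theorem side_I : ∀ (b : Bool) (s s' : Fin 5), inner s s' = true →
    Bool.xor b (decide (2 ≤ s.val)) ≠ Bool.xor b (decide (2 ≤ s'.val)) := by
  decide +kernel

theorem side_J : ∀ (s s' : Fin 5), inner s s' = true →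
    decide (s.val < 2) ≠ decide (s'.val < 2) := by
  decide +kernel

theorem side_ne (x y : Vtx) (h : adj x y = true) : side x ≠ side y := by
  rcases x with r | ⟨g, s⟩ | ⟨g, s⟩ <;> rcases y with r' | ⟨g', s'⟩ | ⟨g', s'⟩ <;>
    simp only [adj, Bool.and_eq_true, decide_eq_true_eq, reduceCtorEq] at h <;> simp only [side]
  · exact (side_K g' s' r h).symm
  · exact (side_C s' r h).symm
  · exact side_K g s r' h
  · obtain ⟨h1, h2⟩ := h
    subst h1
    exact side_I _ s s' h2
  · exact side_C s r' h
  · exact side_J s s' h.2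

/-- The neighbourhood sums. -/
def nsum (f : Vtx → ℕ) (u : Vtx) : ℕ := ∑ w, if adj u w = true then f w else 0

/-- The sum of the labels of the outer neighbours. -/
def oK (f : Vtx → ℕ) (g : Fin 26) (s : Fin 5) : ℕ :=
  ∑ r : Fin 6, if outK g s r = true then f (Sum.inl r) else 0

/-- The sum of the labels of the outer neighbours. -/
def oC (f : Vtx → ℕ) (s : Fin 5) : ℕ :=
  ∑ r : Fin 6, if outC s r = true then f (Sum.inl r) else 0

theorem sum_K (f : Vtx → ℕ) (g : Fin 26) (s : Fin 5) :
    nsum f (Sum.inr (Sum.inl (g, s))) =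
      oK f g s + ∑ t : Fin 5, if inner s t = true then f (Sum.inr (Sum.inl (g, t))) else 0 := by
  unfold nsum
  rw [Fintype.sum_sum_type, Fintype.sum_sum_type]
  have h1 : ∀ x : Fin 3 × Fin 5,
      (if adj (Sum.inr (Sum.inl (g, s))) (Sum.inr (Sum.inr x)) = true
      then f (Sum.inr (Sum.inr x)) else 0) = 0 := by
    intro x
    rfl
  have h3 : ∀ x : Fin 26 × Fin 5,
      (if adj (Sum.inr (Sum.inl (g, s))) (Sum.inr (Sum.inl x)) = true
      then f (Sum.inr (Sum.inl x)) else 0) =
        if g = x.1 then (if inner s x.2 = true then f (Sum.inr (Sum.inl (g, x.2))) else 0)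
        else 0 := by
    rintro ⟨g', t⟩
    by_cases hg : g = g'
    · subst hg
      simp [adj]
    · simp [adj, hg]
  rw [Finset.sum_congr rfl (fun x _ => h1 x), Finset.sum_congr rfl (fun x _ => h3 x)]
  rw [Finset.sum_const_zero, add_zero, Fintype.sum_prod_type]
  have h4 : (∑ x : Fin 26, ∑ y : Fin 5, if g = (x, y).1 then
      (if inner s (x, y).2 = true then f (Sum.inr (Sum.inl (g, (x, y).2))) else 0) else 0) =
      ∑ t : Fin 5, if inner s t = true then f (Sum.inr (Sum.inl (g, t))) else 0 := by
    rw [Finset.sum_eq_single g]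
    · simp
    · intro b _ hb
      have hb' : ¬ g = b := fun e => hb e.symm
      simp [hb']
    · intro h
      exact absurd (Finset.mem_univ g) h
  rw [h4]
  rfl

theorem sum_C (f : Vtx → ℕ) (c : Fin 3) (s : Fin 5) :
    nsum f (Sum.inr (Sum.inr (c, s))) =
      oC f s + ∑ c' : Fin 3, if c ≠ c' then
        (∑ t : Fin 5, if inner s t = true then f (Sum.inr (Sum.inr (c', t))) else 0) else 0 := by
  unfold nsum
  rw [Fintype.sum_sum_type, Fintype.sum_sum_type]
  have h1 : ∀ x : Fin 26 × Fin 5,
      (if adj (Sum.inr (Sum.inr (c, s))) (Sum.inr (Sum.inl x)) = true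
      then f (Sum.inr (Sum.inl x)) else 0) = 0 := by
    intro x
    rfl
  have h3 : ∀ x : Fin 3 × Fin 5,
      (if adj (Sum.inr (Sum.inr (c, s))) (Sum.inr (Sum.inr x)) = true
      then f (Sum.inr (Sum.inr x)) else 0) =
        if c ≠ x.1 then (if inner s x.2 = true then f (Sum.inr (Sum.inr (x.1, x.2))) else 0)
        else 0 := by
    rintro ⟨c', t⟩
    by_cases hc : c = c'
    · simp [adj, hc]
    · simp [adj, hc]
  rw [Finset.sum_congr rfl (fun x _ => h1 x), Finset.sum_congr rfl (fun x _ => h3 x)]
  rw [Finset.sum_const_zero, zero_add, Fintype.sum_prod_type]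
  have h4 : ∀ c' : Fin 3, (∑ y : Fin 5, if c ≠ (c', y).1 then
      (if inner s (c', y).2 = true then f (Sum.inr (Sum.inr ((c', y).1, (c', y).2))) else 0)
      else 0) = if c ≠ c' then
      (∑ t : Fin 5, if inner s t = true then f (Sum.inr (Sum.inr (c', t))) else 0) else 0 := by
    intro c'
    by_cases hc : c = c'
    · simp [hc]
    · simp [hc]
  rw [Finset.sum_congr rfl (fun x _ => h4 x)]
  rfl

/-! ## The dead blocks -/

/-- The label of an outer vertex. -/
def val (b : Bool) : ℕ := if b then 2 else 1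

/-- For every labelling of the outer vertices other than the one with all labels `2` there is a
block with the outer sums `1`, `2` and `4`. -/
theorem exists_block : ∀ ρ : Fin 6 → Bool, (∀ i, ρ i = true) ∨ ∃ g : Fin 26,
    ((outL g 1).map (fun r => val (ρ r))).sum = 1 ∧
    ((outL g 3).map (fun r => val (ρ r))).sum = 2 ∧
    ((outL g 4).map (fun r => val (ρ r))).sum = 4 := by
  decide +kernel

theorem outL_nodup : ∀ (g : Fin 26) (s : Fin 5), (outL g s).Nodup := by
  decide +kernel

theorem outL_zero : ∀ g : Fin 26, outL g 0 = [] ∧ outL g 2 = [] := by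
  decide +kernel

theorem oK_eq (f : Vtx → ℕ) (g : Fin 26) (s : Fin 5) :
    oK f g s = ((outL g s).map (fun r => f (Sum.inl r))).sum := by
  unfold oK outK
  rw [← Finset.sum_filter, ← List.sum_toFinset _ (outL_nodup g s)]
  apply Finset.sum_congr _ (fun _ _ => rfl)
  ext r
  simp

/-- The arithmetic of a dead block. -/
theorem dead_arith (U W : ℕ) (hU : 2 ≤ U ∧ U ≤ 4) (hW : 3 ≤ W ∧ W ≤ 6)
    (h00 : 0 + W ≠ 0 + U) (h01 : 0 + W ≠ 2 + U) (h02 : 0 + W ≠ 4 + U)
    (h10 : 1 + W ≠ 0 + U) (h11 : 1 + W ≠ 2 + U) (h12 : 1 + W ≠ 4 + U) : False := by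
  omega

/-- The arithmetic of two adjacent parts of the 6-cycle. -/
theorem even_arith (X Y : ℕ) (hX : 6 ≤ X ∧ X ≤ 12) (hY : 4 ≤ Y ∧ Y ≤ 8)
    (h00 : 0 + X ≠ 0 + Y) (h01 : 0 + X ≠ 4 + Y) (h02 : 0 + X ≠ 8 + Y)
    (h10 : 2 + X ≠ 0 + Y) (h11 : 2 + X ≠ 4 + Y) (h12 : 2 + X ≠ 8 + Y) : (X + Y) % 2 = 1 := by
  omega

theorem sum_inner_low (F : Fin 5 → ℕ) (s : Fin 5) (hs : s.val < 2) :
    (∑ t : Fin 5, if inner s t = true then F t else 0) = F 2 + F 3 + F 4 := by
  have h : ∀ s : Fin 5, s.val < 2 → inner s 0 = false ∧ inner s 1 = false ∧ inner s 2 = true ∧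
    inner s 3 = true ∧ inner s 4 = true := by decide
  obtain ⟨h0, h1, h2, h3, h4⟩ := h s hs
  rw [Fin.sum_univ_five, h0, h1, h2, h3, h4]
  simp

theorem sum_inner_high (F : Fin 5 → ℕ) (s : Fin 5) (hs : 2 ≤ s.val) :
    (∑ t : Fin 5, if inner s t = true then F t else 0) = F 0 + F 1 := by
  have h : ∀ s : Fin 5, 2 ≤ s.val → inner s 0 = true ∧ inner s 1 = true ∧ inner s 2 = false ∧
    inner s 3 = false ∧ inner s 4 = false := by decide
  obtain ⟨h0, h1, h2, h3, h4⟩ := h s hs
  rw [Fin.sum_univ_five, h0, h1, h2, h3, h4]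
  simp

/-- If some outer label is `1`, one of the 26 blocks is dead. -/
theorem dead_block (f : Vtx → ℕ) (hf : ∀ v, 1 ≤ f v ∧ f v ≤ 2)
    (h : ∀ u v, adj u v = true → nsum f u ≠ nsum f v) (g : Fin 26)
    (h1 : oK f g 1 = 1) (h3 : oK f g 3 = 2) (h4 : oK f g 4 = 4) : False := by
  have h0 : oK f g 0 = 0 := by rw [oK_eq, (outL_zero g).1]; rfl
  have h2 : oK f g 2 = 0 := by rw [oK_eq, (outL_zero g).2]; rfl
  have key : ∀ s t : Fin 5, s.val < 2 → 2 ≤ t.val →
      oK f g s + (f (Sum.inr (Sum.inl (g, 2))) + f (Sum.inr (Sum.inl (g, 3)))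
        + f (Sum.inr (Sum.inl (g, 4)))) ≠
      oK f g t + (f (Sum.inr (Sum.inl (g, 0))) + f (Sum.inr (Sum.inl (g, 1)))) := by
    intro s t hs ht
    have e1 := sum_K f g s
    have e2 := sum_K f g t
    rw [sum_inner_low (fun t => f (Sum.inr (Sum.inl (g, t)))) s hs] at e1
    rw [sum_inner_high (fun t => f (Sum.inr (Sum.inl (g, t)))) t ht] at e2
    rw [← e1, ← e2]
    apply h
    have : ∀ s t : Fin 5, s.val < 2 → 2 ≤ t.val → inner s t = true := by decide
    simp [adj, this s t hs ht]
  have f0 := hf (Sum.inr (Sum.inl (g, 0)))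
  have f1 := hf (Sum.inr (Sum.inl (g, 1)))
  have f2 := hf (Sum.inr (Sum.inl (g, 2)))
  have f3 := hf (Sum.inr (Sum.inl (g, 3)))
  have f4 := hf (Sum.inr (Sum.inl (g, 4)))
  have k02 := key 0 2 (by decide) (by decide)
  have k03 := key 0 3 (by decide) (by decide)
  have k04 := key 0 4 (by decide) (by decide)
  have k12 := key 1 2 (by decide) (by decide)
  have k13 := key 1 3 (by decide) (by decide)
  have k14 := key 1 4 (by decide) (by decide)
  rw [h0, h2] at k02
  rw [h0, h3] at k03
  rw [h0, h4] at k04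
  rw [h1, h2] at k12
  rw [h1, h3] at k13
  rw [h1, h4] at k14
  exact dead_arith _ _ (by omega) (by omega) k02 k03 k04 k12 k13 k14

/-- If all outer labels are `2`, the blown-up 6-cycle cannot be labelled. -/
theorem dead_cycle (f : Vtx → ℕ) (hf : ∀ v, 1 ≤ f v ∧ f v ≤ 2)
    (h : ∀ u v, adj u v = true → nsum f u ≠ nsum f v) (hr : ∀ r : Fin 6, f (Sum.inl r) = 2) :
    False := by
  have o0 : oC f 0 = 0 := by
    simp only [oC, hr]; decide
  have o1 : oC f 1 = 2 := by
    simp only [oC, hr]; decide
  have o2 : oC f 2 = 0 := by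
    simp only [oC, hr]; decide
  have o3 : oC f 3 = 4 := by
    simp only [oC, hr]; decide
  have o4 : oC f 4 = 8 := by
    simp only [oC, hr]; decide
  -- the sums of the parts
  obtain ⟨a, ha⟩ : ∃ a : Fin 3 → ℕ, ∀ c, a c =
      f (Sum.inr (Sum.inr (c, 0))) + f (Sum.inr (Sum.inr (c, 1))) := ⟨_, fun _ => rfl⟩
  obtain ⟨b, hb⟩ : ∃ b : Fin 3 → ℕ, ∀ c, b c =
      f (Sum.inr (Sum.inr (c, 2))) + f (Sum.inr (Sum.inr (c, 3)))
        + f (Sum.inr (Sum.inr (c, 4))) := ⟨_, fun _ => rfl⟩
  have ha' : ∀ c, 2 ≤ a c ∧ a c ≤ 4 := by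
    intro c
    have e0 := hf (Sum.inr (Sum.inr (c, 0)))
    have e1 := hf (Sum.inr (Sum.inr (c, 1)))
    rw [ha]; omega
  have hb' : ∀ c, 3 ≤ b c ∧ b c ≤ 6 := by
    intro c
    have e0 := hf (Sum.inr (Sum.inr (c, 2)))
    have e1 := hf (Sum.inr (Sum.inr (c, 3)))
    have e2 := hf (Sum.inr (Sum.inr (c, 4)))
    rw [hb]; omega
  have low : ∀ (c : Fin 3) (s : Fin 5), s.val < 2 →
      nsum f (Sum.inr (Sum.inr (c, s))) = oC f s + ∑ c' : Fin 3, if c ≠ c' then b c' else 0 := by
    intro c s hs
    rw [sum_C]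
    congr 1
    apply Finset.sum_congr rfl
    intro c' _
    rw [sum_inner_low (fun t => f (Sum.inr (Sum.inr (c', t)))) s hs, hb]
  have high : ∀ (c : Fin 3) (s : Fin 5), 2 ≤ s.val →
      nsum f (Sum.inr (Sum.inr (c, s))) = oC f s + ∑ c' : Fin 3, if c ≠ c' then a c' else 0 := by
    intro c s hs
    rw [sum_C]
    congr 1
    apply Finset.sum_congr rfl
    intro c' _
    rw [sum_inner_high (fun t => f (Sum.inr (Sum.inr (c', t)))) s hs, ha]
  have key : ∀ c d : Fin 3, c ≠ d →
      ((∑ c' : Fin 3, if c ≠ c' then b c' else 0) +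
        (∑ c' : Fin 3, if d ≠ c' then a c' else 0)) % 2 = 1 := by
    intro c d hcd
    have bX : 6 ≤ (∑ c' : Fin 3, if c ≠ c' then b c' else 0) ∧
        (∑ c' : Fin 3, if c ≠ c' then b c' else 0) ≤ 12 := by
      have b0 := hb' 0
      have b1 := hb' 1
      have b2 := hb' 2
      rw [Fin.sum_univ_three]
      fin_cases c <;> simp <;> omega
    have bY : 4 ≤ (∑ c' : Fin 3, if d ≠ c' then a c' else 0) ∧
        (∑ c' : Fin 3, if d ≠ c' then a c' else 0) ≤ 8 := by
      have b0 := ha' 0
      have b1 := ha' 1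
      have b2 := ha' 2
      rw [Fin.sum_univ_three]
      fin_cases d <;> simp <;> omega
    have kk : ∀ s t : Fin 5, s.val < 2 → 2 ≤ t.val →
        oC f s + (∑ c' : Fin 3, if c ≠ c' then b c' else 0) ≠
        oC f t + (∑ c' : Fin 3, if d ≠ c' then a c' else 0) := by
      intro s t hs ht
      rw [← low c s hs, ← high d t ht]
      apply h
      have : ∀ s t : Fin 5, s.val < 2 → 2 ≤ t.val → inner s t = true := by decide
      simp [adj, this s t hs ht, hcd]
    have k02 := kk 0 2 (by decide) (by decide)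
    have k03 := kk 0 3 (by decide) (by decide)
    have k04 := kk 0 4 (by decide) (by decide)
    have k12 := kk 1 2 (by decide) (by decide)
    have k13 := kk 1 3 (by decide) (by decide)
    have k14 := kk 1 4 (by decide) (by decide)
    rw [o0, o2] at k02
    rw [o0, o3] at k03
    rw [o0, o4] at k04
    rw [o1, o2] at k12
    rw [o1, o3] at k13
    rw [o1, o4] at k14
    exact even_arith _ _ bX bY k02 k03 k04 k12 k13 k14
  have k01 := key 0 1 (by decide)
  have k02 := key 0 2 (by decide)
  have k10 := key 1 0 (by decide)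
  have k12 := key 1 2 (by decide)
  have k20 := key 2 0 (by decide)
  have k21 := key 2 1 (by decide)
  simp only [Fin.sum_univ_three, Fin.isValue, ne_eq, not_true_eq_false, if_false, zero_add,
    add_zero, Fin.reduceEq, not_false_eq_true, if_true] at k01 k02 k10 k12 k20 k21
  omega

/-- There is no labelling by `1` and `2` for which adjacent vertices have different
neighbourhood sums. -/
theorem no_labelling (f : Vtx → ℕ) (hf : ∀ v, 1 ≤ f v ∧ f v ≤ 2)
    (h : ∀ u v, adj u v = true → nsum f u ≠ nsum f v) : False := by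
  have hval : ∀ r : Fin 6, val (decide (f (Sum.inl r) = 2)) = f (Sum.inl r) := by
    intro r
    have := hf (Sum.inl r)
    by_cases e : f (Sum.inl r) = 2
    · simp [val, e]
    · simp [val, e]
      omega
  rcases exists_block (fun r => decide (f (Sum.inl r) = 2)) with hall | ⟨g, h1, h3, h4⟩
  · exact dead_cycle f hf h (fun r => by simpa using hall r)
  · simp only [hval] at h1 h3 h4
    exact dead_block f hf h g (by rw [oK_eq]; exact h1) (by rw [oK_eq]; exact h3)
      (by rw [oK_eq]; exact h4)

end Pool.Agent.H.MP_d93746_co
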